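import Pool.Agent.Q62.OB.Defs

namespace Pool.Agent.Q62.OB

open MeasureTheory Filter Set AddCircle
open scoped Topology ComplexConjugate

lemma haar_eq : (haarAddCircle : Measure (AddCircle (1 : ℝ))) = volume := by
  rw [AddCircle.volume_eq_smul_haarAddCircle]; simp

lemma res_eq : (volume.restrict (Ioo (0 : ℝ) 1)) = volume.restrict (Ioc (0 : ℝ) 1) :=
  Measure.restrict_congr_set Ioo_ae_eq_Ioc

lemma mp_mk : MeasurePreserving (fun x : ℝ => (x : AddCircle (1 : ℝ)))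
    (volume.restrict (Ioo (0 : ℝ) 1)) haarAddCircle := by
  rw [haar_eq, res_eq]
  have h := AddCircle.measurePreserving_mk (1 : ℝ) 0
  rwa [zero_add] at h

noncomputable def rho (z : AddCircle (1 : ℝ)) : ℝ := (AddCircle.equivIoc (1 : ℝ) 0 z : ℝ)

lemma mp_rho : MeasurePreserving rho (haarAddCircle : Measure (AddCircle (1 : ℝ)))
    (volume.restrict (Ioo (0 : ℝ) 1)) := by
  rw [haar_eq, res_eq]
  have h := AddCircle.measurePreserving_equivIoc (1 : ℝ) (a := 0)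
  have h2 : MeasurePreserving (Subtype.val : Ioc (0 : ℝ) (0 + 1) → ℝ)
      (Measure.comap Subtype.val volume) (volume.restrict (Ioc (0 : ℝ) (0 + 1))) :=
    measurePreserving_subtype_coe measurableSet_Ioc
  have h3 := h2.comp h
  have hz : Ioc (0 : ℝ) 1 = Ioc (0 : ℝ) (0 + 1) := by rw [zero_add]
  rw [hz]
  exact h3

lemma rho_mk {x : ℝ} (hx : x ∈ Ioo (0 : ℝ) 1) : rho (x : AddCircle (1 : ℝ)) = x := by
  unfold rho
  rw [AddCircle.equivIoc_coe_eq (p := (1 : ℝ)) (a := 0) (x := x) ⟨hx.1, by linarith [hx.2]⟩]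

/-- The isometry from `L²` of the circle to `L²(0,1)`. -/
noncomputable def U : Lp ℂ 2 (haarAddCircle : Measure (AddCircle (1 : ℝ))) →ₗᵢ[ℂ] H :=
  Lp.compMeasurePreservingₗᵢ ℂ (fun x : ℝ => (x : AddCircle (1 : ℝ))) mp_mk

lemma U_coe (g : Lp ℂ 2 (haarAddCircle : Measure (AddCircle (1 : ℝ)))) :
    (U g : ℝ → ℂ) =ᵐ[volume.restrict (Ioo (0 : ℝ) 1)] fun x => g (x : AddCircle (1 : ℝ)) :=
  Lp.coeFn_compMeasurePreserving g mp_mk

lemma U_surj : Function.Surjective U := by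
  intro g
  refine ⟨Lp.compMeasurePreserving rho mp_rho g, ?_⟩
  apply Lp.ext
  have h1 := Lp.coeFn_compMeasurePreserving g mp_rho
  have h2 := mp_mk.quasiMeasurePreserving.ae_eq_comp h1
  filter_upwards [U_coe (Lp.compMeasurePreserving rho mp_rho g), h2,
    ae_restrict_mem measurableSet_Ioo] with x hx1 hx2 hx
  rw [hx1]
  have h3 : (Lp.compMeasurePreserving rho mp_rho g : AddCircle (1 : ℝ) → ℂ)
      (x : AddCircle (1 : ℝ)) = (g ∘ rho) (x : AddCircle (1 : ℝ)) := hx2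
  rw [h3]
  simp only [Function.comp_apply, rho_mk hx]

/-- The exponential `e_n(x) = exp (2 π i n x)`. -/
noncomputable def ex (n : ℤ) (x : ℝ) : ℂ := Complex.exp (2 * Real.pi * Complex.I * n * x)

/-- The exponentials as elements of `H`, indexed by `ℕ`: `0, -1, 1, -2, 2, ...`. -/
noncomputable def E (j : ℕ) : H := U (fourierLp 2 (Equiv.intEquivNat.symm j))

lemma E_coe (j : ℕ) : (E j : ℝ → ℂ) =ᵐ[volume.restrict (Ioo (0 : ℝ) 1)]
    ex (Equiv.intEquivNat.symm j) := by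
  have h1 := coeFn_fourierLp (T := (1 : ℝ)) 2 (Equiv.intEquivNat.symm j)
  have h2 := mp_mk.quasiMeasurePreserving.ae_eq_comp h1
  filter_upwards [U_coe (fourierLp 2 (Equiv.intEquivNat.symm j)), h2] with x hx1 hx2
  have h3 : (fourierLp (T := (1 : ℝ)) 2 (Equiv.intEquivNat.symm j) : AddCircle (1 : ℝ) → ℂ)
      (x : AddCircle (1 : ℝ)) = fourier (Equiv.intEquivNat.symm j) (x : AddCircle (1 : ℝ)) := hx2
  unfold E
  rw [hx1, h3, fourier_coe_apply, ex]
  congr 1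
  push_cast
  ring

lemma E_orth : Orthonormal ℂ E := by
  have h1 : Orthonormal ℂ (fun n : ℤ => U (fourierLp (T := (1 : ℝ)) 2 n)) :=
    orthonormal_fourier.comp_linearIsometry U
  exact h1.comp _ Equiv.intEquivNat.symm.injective

lemma E_span : (⊤ : Submodule ℂ H) ≤ (Submodule.span ℂ (range E)).topologicalClosure := by
  intro y _
  obtain ⟨g, rfl⟩ := U_surj y
  have h1 := span_fourierLp_closure_eq_top (T := (1 : ℝ)) (p := 2) (by simp)
  have hg : g ∈ (Submodule.span ℂ (range (fourierLp (T := (1 : ℝ)) 2))).topologicalClosure := by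
    rw [h1]; trivial
  rw [← SetLike.mem_coe, Submodule.topologicalClosure_coe] at hg ⊢
  have h2 : MapsTo U (Submodule.span ℂ (range (fourierLp (T := (1 : ℝ)) 2)) : Set _)
      (Submodule.span ℂ (range E) : Set H) := by
    intro z hz
    have h3 : U z ∈ (Submodule.span ℂ (range (fourierLp (T := (1 : ℝ)) 2))).map U.toLinearMap :=
      ⟨z, hz, rfl⟩
    rw [Submodule.map_span] at h3
    refine Submodule.span_mono ?_ h3
    rintro _ ⟨_, ⟨n, rfl⟩, rfl⟩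
    refine ⟨Equiv.intEquivNat n, ?_⟩
    simp [E]
  exact map_mem_closure U.continuous hg h2

/-- The rotated family. -/
noncomputable def rot {V : Type*} [AddCommGroup V] [Module ℂ V] (e : ℕ → V) : ℕ → V
  | 0 => ((Real.sqrt 2 : ℝ) : ℂ)⁻¹ • (e 0 + e 1)
  | 1 => ((Real.sqrt 2 : ℝ) : ℂ)⁻¹ • (e 0 - e 1)
  | 2 => ((Real.sqrt 2 : ℝ) : ℂ)⁻¹ • (e 2 - e 3)
  | 3 => ((Real.sqrt 2 : ℝ) : ℂ)⁻¹ • (e 2 + e 3)
  | (j + 4) => e (j + 4)

lemma sq2 : ((Real.sqrt 2 : ℝ) : ℂ)⁻¹ * ((Real.sqrt 2 : ℝ) : ℂ)⁻¹ = 2⁻¹ := by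
  rw [← mul_inv, ← Complex.ofReal_mul, Real.mul_self_sqrt (by norm_num)]
  norm_num

lemma rot_orth {e : ℕ → H} (he : Orthonormal ℂ e) : Orthonormal ℂ (rot e) := by
  rw [orthonormal_iff_ite] at he ⊢
  have h2 : (starRingEnd ℂ) (((Real.sqrt 2 : ℝ) : ℂ)⁻¹) = ((Real.sqrt 2 : ℝ) : ℂ)⁻¹ := by
    rw [map_inv₀, Complex.conj_ofReal]
  intro i j
  rcases i with _ | _ | _ | _ | i <;> rcases j with _ | _ | _ | _ | j <;>
    simp only [rot, inner_add_left, inner_add_right, inner_sub_left, inner_sub_right,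
      inner_smul_left, inner_smul_right, he, h2] <;>
    norm_num [← mul_assoc, sq2]
  all_goals first
    | (rw [mul_add, sq2]; norm_num; done)
    | omega
    | (split_ifs <;> first | omega | simp)

lemma rot_span (e : ℕ → H) : Submodule.span ℂ (range e) ≤ Submodule.span ℂ (range (rot e)) := by
  rw [Submodule.span_le]
  rintro _ ⟨j, rfl⟩
  have hm : ∀ j, rot e j ∈ Submodule.span ℂ (range (rot e)) := fun j =>
    Submodule.subset_span ⟨j, rfl⟩
  have hs : ((Real.sqrt 2 : ℝ) : ℂ)⁻¹ * ((Real.sqrt 2 : ℝ) : ℂ)⁻¹ = 2⁻¹ := sq2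
  rcases j with _ | _ | _ | _ | j
  · have h : e 0 = ((Real.sqrt 2 : ℝ) : ℂ)⁻¹ • (rot e 0 + rot e 1) := by
      simp only [rot, ← smul_add, smul_smul, hs]
      module
    rw [SetLike.mem_coe]; show e 0 ∈ _
    rw [h]; exact Submodule.smul_mem _ _ (Submodule.add_mem _ (hm 0) (hm 1))
  · have h : e 1 = ((Real.sqrt 2 : ℝ) : ℂ)⁻¹ • (rot e 0 - rot e 1) := by
      simp only [rot, ← smul_sub, smul_smul, hs]
      module
    rw [SetLike.mem_coe]; show e 1 ∈ _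
    rw [h]; exact Submodule.smul_mem _ _ (Submodule.sub_mem _ (hm 0) (hm 1))
  · have h : e 2 = ((Real.sqrt 2 : ℝ) : ℂ)⁻¹ • (rot e 2 + rot e 3) := by
      simp only [rot, ← smul_add, smul_smul, hs]
      module
    rw [SetLike.mem_coe]; show e 2 ∈ _
    rw [h]; exact Submodule.smul_mem _ _ (Submodule.add_mem _ (hm 2) (hm 3))
  · have h : e 3 = ((Real.sqrt 2 : ℝ) : ℂ)⁻¹ • (rot e 3 - rot e 2) := by
      simp only [rot, ← smul_sub, smul_smul, hs]
      module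
    rw [SetLike.mem_coe]; show e 3 ∈ _
    rw [h]; exact Submodule.smul_mem _ _ (Submodule.sub_mem _ (hm 3) (hm 2))
  · exact hm (j + 4)

lemma rotE_span : (⊤ : Submodule ℂ H) ≤ (Submodule.span ℂ (range (rot E))).topologicalClosure :=
  E_span.trans (Submodule.topologicalClosure_mono (rot_span E))

/-- The Hilbert basis of eigenfunctions. -/
noncomputable def bas : HilbertBasis ℕ ℂ H := HilbertBasis.mk (rot_orth E_orth) rotE_span

lemma bas_coe (j : ℕ) : bas j = rot E j := by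
  unfold bas; rw [HilbertBasis.coe_mk]

/-- The analytic representatives. -/
noncomputable def fr (j : ℕ) : ℝ → ℂ := rot (fun k => ex (Equiv.intEquivNat.symm k)) j

lemma bas_rep (j : ℕ) : (bas j : ℝ → ℂ) =ᵐ[volume.restrict (Ioo (0 : ℝ) 1)] fr j := by
  rw [bas_coe]
  rcases j with _ | _ | _ | _ | j
  · show (((Real.sqrt 2 : ℝ) : ℂ)⁻¹ • (E 0 + E 1) : H) =ᵐ[_] _
    filter_upwards [Lp.coeFn_smul ((Real.sqrt 2 : ℝ) : ℂ)⁻¹ (E 0 + E 1), Lp.coeFn_add (E 0) (E 1),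
      E_coe 0, E_coe 1] with x h1 h2 h3 h4
    rw [h1, Pi.smul_apply, h2, Pi.add_apply, h3, h4]; rfl
  · show (((Real.sqrt 2 : ℝ) : ℂ)⁻¹ • (E 0 - E 1) : H) =ᵐ[_] _
    filter_upwards [Lp.coeFn_smul ((Real.sqrt 2 : ℝ) : ℂ)⁻¹ (E 0 - E 1), Lp.coeFn_sub (E 0) (E 1),
      E_coe 0, E_coe 1] with x h1 h2 h3 h4
    rw [h1, Pi.smul_apply, h2, Pi.sub_apply, h3, h4]; rfl
  · show (((Real.sqrt 2 : ℝ) : ℂ)⁻¹ • (E 2 - E 3) : H) =ᵐ[_] _
    filter_upwards [Lp.coeFn_smul ((Real.sqrt 2 : ℝ) : ℂ)⁻¹ (E 2 - E 3), Lp.coeFn_sub (E 2) (E 3),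
      E_coe 2, E_coe 3] with x h1 h2 h3 h4
    rw [h1, Pi.smul_apply, h2, Pi.sub_apply, h3, h4]; rfl
  · show (((Real.sqrt 2 : ℝ) : ℂ)⁻¹ • (E 2 + E 3) : H) =ᵐ[_] _
    filter_upwards [Lp.coeFn_smul ((Real.sqrt 2 : ℝ) : ℂ)⁻¹ (E 2 + E 3), Lp.coeFn_add (E 2) (E 3),
      E_coe 2, E_coe 3] with x h1 h2 h3 h4
    rw [h1, Pi.smul_apply, h2, Pi.add_apply, h3, h4]; rfl
  · exact E_coe (j + 4)

lemma ex_an (n : ℤ) : AnalyticOnNhd ℝ (ex n) univ := by
  unfold ex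
  intro x _
  have h1 : AnalyticAt ℝ (fun x : ℝ => (x : ℂ)) x := Complex.ofRealCLM.analyticAt x
  have h2 : AnalyticAt ℝ (fun x : ℝ => 2 * Real.pi * Complex.I * n * (x : ℂ)) x :=
    analyticAt_const.mul h1
  have h3 : AnalyticAt ℝ Complex.exp (2 * Real.pi * Complex.I * n * (x : ℂ)) :=
    AnalyticAt.restrictScalars analyticAt_cexp
  exact AnalyticAt.comp (g := Complex.exp)
    (f := fun x : ℝ => 2 * Real.pi * Complex.I * n * (x : ℂ)) h3 h2

lemma fr_an (j : ℕ) : AnalyticOnNhd ℝ (fr j) univ := by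
  intro x _
  have h : ∀ n, AnalyticAt ℝ (ex n) x := fun n => ex_an n x trivial
  rcases j with _ | _ | _ | _ | j
  · exact analyticAt_const.smul ((h _).add (h _))
  · exact analyticAt_const.smul ((h _).sub (h _))
  · exact analyticAt_const.smul ((h _).sub (h _))
  · exact analyticAt_const.smul ((h _).add (h _))
  · exact h _

end Pool.Agent.Q62.OB
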