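import Mathlib

/-!
Optimal observation profiles on the interval `(0,1)` for scalar (complex valued) abstract
parabolic equations `∂_t y + A₀ y = 0`.
-/

namespace Pool.Agent.Q62.OB

open MeasureTheory Filter Set
open scoped Topology

/-- The complex Hilbert space `L²(Ω, ℂ)` for `Ω = (0,1)`. -/
abbrev H : Type := Lp ℂ 2 (volume.restrict (Ioo (0 : ℝ) 1))

/-- `S t` (`t ≥ 0`) is a strongly continuous semigroup of bounded operators of `L²(Ω, ℂ)`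
(the values `S t` for `t < 0` play no role). -/
structure IsSemigroup (S : ℝ → H →L[ℂ] H) : Prop where
  zero : ∀ y, S 0 y = y
  add : ∀ s t, 0 ≤ s → 0 ≤ t → ∀ y, S (s + t) y = S s (S t y)
  cont : ∀ y, ContinuousOn (fun t => S t y) (Ici 0)

/-- `A₀ y = z`, where `-A₀` is the generator of the semigroup `S`: the vector `y` is in the
domain of `A₀` and `(y - S t y) / t → z` as `t → 0+`. -/
def IsA (S : ℝ → H →L[ℂ] H) (y z : H) : Prop :=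
  Tendsto (fun t : ℝ => ((t : ℂ)⁻¹) • (y - S t y)) (𝓝[>] 0) (𝓝 z)

/-- The domain `D(A₀)`. -/
def Dom (S : ℝ → H →L[ℂ] H) : Set H := {y | ∃ z, IsA S y z}

/-- Hypothesis (H1): the Hilbert basis `φ` consists of eigenvectors of `A₀`, with
eigenvalues `lam j` whose real parts are nondecreasing and tend to `+∞`. -/
structure H1 (S : ℝ → H →L[ℂ] H) (φ : HilbertBasis ℕ ℂ H) (lam : ℕ → ℂ) : Prop where
  eig : ∀ j, IsA S (φ j) (lam j • φ j)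
  mono : Monotone fun j => (lam j).re
  top : Tendsto (fun j => (lam j).re) atTop atTop

/-- Hypothesis (H2): `φ j` has the real analytic representative `f j` on `Ω = (0,1)`. -/
structure H2 (φ : HilbertBasis ℕ ℂ H) (f : ℕ → ℝ → ℂ) : Prop where
  rep : ∀ j, (φ j : ℝ → ℂ) =ᵐ[volume.restrict (Ioo (0 : ℝ) 1)] f j
  analytic : ∀ j, AnalyticOnNhd ℝ (f j) (Ioo 0 1)

/-- `Φ = ∑_{p ∈ J} η_p |∑_{j ∈ J} β_{j,p} φ_j|²`. -/
noncomputable def Phi (f : ℕ → ℝ → ℂ) (J : Finset ℕ) (β : ℕ → ℕ → ℝ) (η : ℕ → ℝ) (x : ℝ) : ℝ :=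
  ∑ p ∈ J, η p * ‖∑ j ∈ J, (β j p : ℂ) * f j x‖ ^ 2

/-- Hypothesis (H_L) for `Ω = (0,1)`; here `J` is the set of all `j` with
`Re lam j = Re lam 0`, a finite set under (H1). -/
structure HL (lam : ℕ → ℂ) (f : ℕ → ℝ → ℂ) (L : ℝ) : Prop where
  c1 : ∀ j, (lam j).re = (lam 0).re → ContDiffOn ℝ 1 (f j) (Icc 0 1)
  grad : ∀ J : Finset ℕ, (∀ j, j ∈ J ↔ (lam j).re = (lam 0).re) →
    ∀ (β : ℕ → ℕ → ℝ) (η : ℕ → ℝ), (∃ j ∈ J, ∃ p ∈ J, β j p ≠ 0) →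
    (∀ p ∈ J, 0 ≤ η p ∧ η p ≤ 1) → ∑ p ∈ J, η p = 1 →
    ∀ ν : ℝ, 0 < ν → volume {x | x ∈ Ioo (0 : ℝ) 1 ∧ ν ≤ Phi f J β η x} = ENNReal.ofReal L →
    ∃ δ > 0, ∀ x ∈ frontier {x | x ∈ Ioo (0 : ℝ) 1 ∧ ν ≤ Phi f J β η x} \
      frontier (Ioo (0 : ℝ) 1), δ ≤ |deriv (Phi f J β η) x|

/-- The relaxed set `𝒰_L` of profiles `a : Ω → [0,1]` with `∫_Ω a = L |Ω|` (here `|Ω| = 1`). -/
def UL (L : ℝ) : Set (ℝ → ℝ) :=
  {a | Measurable a ∧ (∀ x ∈ Ioo (0 : ℝ) 1, 0 ≤ a x ∧ a x ≤ 1) ∧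
    ∫ x in Ioo (0 : ℝ) 1, a x = L}

/-- The observability quotient
`(∫_0^T ∫_Ω a(x) |y(t,x)|² dx dt) / ‖y(T)‖²` of the solution `y(t) = S t y₀`. -/
noncomputable def quot (S : ℝ → H →L[ℂ] H) (T : ℝ) (a : ℝ → ℝ) (y₀ : H) : ℝ :=
  (∫ t in (0 : ℝ)..T, ∫ x in Ioo (0 : ℝ) 1, a x * ‖(S t y₀ : ℝ → ℂ) x‖ ^ 2) / ‖S T y₀‖ ^ 2

/-- The observability constant `C_T(a)`. -/
noncomputable def CT (S : ℝ → H →L[ℂ] H) (T : ℝ) (a : ℝ → ℝ) : ℝ :=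
  sInf {r | ∃ y₀ ∈ Dom S, y₀ ≠ 0 ∧ r = quot S T a y₀}

end Pool.Agent.Q62.OB
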