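import Pool.Agent.Q62.OB.Semi

namespace Pool.Agent.Q62.OB

open MeasureTheory Filter Set
open scoped Topology ComplexConjugate ENNReal

lemma ex_eq (n : ℤ) (x : ℝ) : ex n x =
    (Real.cos (n * (2 * Real.pi * x)) : ℂ) + (Real.sin (n * (2 * Real.pi * x)) : ℂ) * Complex.I := by
  unfold ex
  rw [Complex.ofReal_cos, Complex.ofReal_sin, ← Complex.exp_mul_I]
  congr 1
  push_cast
  ring

lemma ex_mul (m n : ℤ) (x : ℝ) : ex m x * ex n x = ex (m + n) x := by
  unfold ex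
  rw [← Complex.exp_add]
  congr 1
  push_cast
  ring

lemma ex_zero (x : ℝ) : ex 0 x = 1 := by unfold ex; simp

lemma cos_ex (x : ℝ) : (Real.cos (2 * Real.pi * x) : ℂ) = (ex 1 x + ex (-1) x) / 2 := by
  rw [ex_eq, ex_eq]
  have h1 : Real.cos (((-1 : ℤ) : ℝ) * (2 * Real.pi * x)) = Real.cos (2 * Real.pi * x) := by
    rw [Int.cast_neg, Int.cast_one, neg_one_mul, Real.cos_neg]
  have h2 : Real.sin (((-1 : ℤ) : ℝ) * (2 * Real.pi * x)) = -Real.sin (2 * Real.pi * x) := by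
    rw [Int.cast_neg, Int.cast_one, neg_one_mul, Real.sin_neg]
  rw [h1, h2, Int.cast_one, one_mul]
  push_cast
  ring

lemma sy0 : Equiv.intEquivNat.symm 0 = 0 := rfl
lemma sy1 : Equiv.intEquivNat.symm 1 = -1 := rfl
lemma sy2 : Equiv.intEquivNat.symm 2 = 1 := rfl
lemma sy3 : Equiv.intEquivNat.symm 3 = -2 := rfl

lemma fr0 (x : ℝ) : fr 0 x = ((Real.sqrt 2 : ℝ) : ℂ)⁻¹ * (ex 0 x + ex (-1) x) := rfl
lemma fr1 (x : ℝ) : fr 1 x = ((Real.sqrt 2 : ℝ) : ℂ)⁻¹ * (ex 0 x - ex (-1) x) := rfl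
lemma fr2 (x : ℝ) : fr 2 x = ((Real.sqrt 2 : ℝ) : ℂ)⁻¹ * (ex 1 x - ex (-2) x) := rfl
lemma fr3 (x : ℝ) : fr 3 x = ((Real.sqrt 2 : ℝ) : ℂ)⁻¹ * (ex 1 x + ex (-2) x) := rfl

lemma cos_fr0 (x : ℝ) : (Real.cos (2 * Real.pi * x) : ℂ) * fr 0 x = (fr 0 x + fr 3 x) / 2 := by
  rw [cos_ex, fr0, fr3]
  have h1 : ex 1 x * ex 0 x = ex 1 x := ex_mul 1 0 x
  have h2 : ex 1 x * ex (-1) x = ex 0 x := ex_mul 1 (-1) x
  have h3 : ex (-1) x * ex 0 x = ex (-1) x := ex_mul (-1) 0 x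
  have h4 : ex (-1) x * ex (-1) x = ex (-2) x := ex_mul (-1) (-1) x
  linear_combination (((Real.sqrt 2 : ℝ) : ℂ)⁻¹ / 2) * (h1 + h2 + h3 + h4)

lemma cos_fr1 (x : ℝ) : (Real.cos (2 * Real.pi * x) : ℂ) * fr 1 x = (fr 2 x - fr 1 x) / 2 := by
  rw [cos_ex, fr1, fr2]
  have h1 : ex 1 x * ex 0 x = ex 1 x := ex_mul 1 0 x
  have h2 : ex 1 x * ex (-1) x = ex 0 x := ex_mul 1 (-1) x
  have h3 : ex (-1) x * ex 0 x = ex (-1) x := ex_mul (-1) 0 x
  have h4 : ex (-1) x * ex (-1) x = ex (-2) x := ex_mul (-1) (-1) x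
  linear_combination (((Real.sqrt 2 : ℝ) : ℂ)⁻¹ / 2) * (h1 - h2 + h3 - h4)

lemma norm_comb (p q x : ℝ) : ‖(p : ℂ) * fr 0 x + (q : ℂ) * fr 1 x‖ ^ 2 =
    p ^ 2 * (1 + Real.cos (2 * Real.pi * x)) + q ^ 2 * (1 - Real.cos (2 * Real.pi * x)) := by
  have h1 : Real.cos (((-1 : ℤ) : ℝ) * (2 * Real.pi * x)) = Real.cos (2 * Real.pi * x) := by
    rw [Int.cast_neg, Int.cast_one, neg_one_mul, Real.cos_neg]
  have h2 : Real.sin (((-1 : ℤ) : ℝ) * (2 * Real.pi * x)) = -Real.sin (2 * Real.pi * x) := by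
    rw [Int.cast_neg, Int.cast_one, neg_one_mul, Real.sin_neg]
  set c := Real.cos (2 * Real.pi * x) with hc
  set s := Real.sin (2 * Real.pi * x) with hs
  have hcs : s ^ 2 + c ^ 2 = 1 := Real.sin_sq_add_cos_sq _
  have h3 : (p : ℂ) * fr 0 x + (q : ℂ) * fr 1 x = (((Real.sqrt 2)⁻¹ * (p * (1 + c) + q * (1 - c)) : ℝ) : ℂ)
      + (((Real.sqrt 2)⁻¹ * (-p * s + q * s) : ℝ) : ℂ) * Complex.I := by
    rw [fr0, fr1, ex_zero, ex_eq (-1), h1, h2]
    push_cast
    ring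
  rw [h3, Complex.sq_norm, Complex.normSq_add_mul_I]
  have h4 : (Real.sqrt 2)⁻¹ ^ 2 = 2⁻¹ := by
    rw [inv_pow, Real.sq_sqrt (by norm_num)]
  have h5 : s ^ 2 = 1 - c ^ 2 := by linarith
  rw [mul_pow, mul_pow, h4]
  have h6 : (-p * s + q * s) ^ 2 = (q - p) ^ 2 * s ^ 2 := by ring
  rw [h6, h5]
  ring

lemma norm_fr0 (x : ℝ) : ‖fr 0 x‖ ^ 2 = 1 + Real.cos (2 * Real.pi * x) := by
  have h := norm_comb 1 0 x
  simpa using h

/-- Hypothesis (H_L) for the example. -/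
lemma S_HL : HL lam fr (1 / 2) where
  c1 := fun j _ => ((fr_an j).contDiff (n := 1)).contDiffOn
  grad := by
    intro J hJ β η hβ hη hs ν hν hvol
    have hJ0 : J = {0} := by
      ext j
      rw [hJ, lam_eq0, Finset.mem_singleton]
    subst hJ0
    rw [Finset.sum_singleton] at hs
    obtain ⟨j, hj, p, hp, hb⟩ := hβ
    rw [Finset.mem_singleton] at hj hp
    subst hj; subst hp
    set κ : ℝ := β 0 0 ^ 2 with hκ
    have hκp : 0 < κ := by positivity
    have hPhi : Phi fr {0} β η = fun x => κ * (1 + Real.cos (2 * Real.pi * x)) := by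
      funext x
      unfold Phi
      rw [Finset.sum_singleton, Finset.sum_singleton, hs, one_mul, norm_mul, mul_pow, norm_fr0,
        Complex.norm_real, Real.norm_eq_abs, sq_abs]
    rw [hPhi] at hvol ⊢
    beta_reduce at hvol ⊢
    have hcos : ∀ x ∈ Ioo (0 : ℝ) 1, Real.cos (2 * Real.pi * x) < 1 := by
      intro x hx
      have h1 := Real.cos_le_one (2 * Real.pi * x)
      rcases lt_or_eq_of_le h1 with h2 | h2
      · exact h2
      · exfalso
        have hpi := Real.pi_pos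
        have h3 := (Real.cos_eq_one_iff_of_lt_of_lt (x := 2 * Real.pi * x)
          (by nlinarith [hx.1, hx.2]) (by nlinarith [hx.1, hx.2])).mp h2
        nlinarith [hx.1, hx.2]
    have hνκ : ν < 2 * κ := by
      by_contra hcon
      rw [not_lt] at hcon
      have hemp : {x | x ∈ Ioo (0 : ℝ) 1 ∧ ν ≤ κ * (1 + Real.cos (2 * Real.pi * x))} = ∅ := by
        rw [eq_empty_iff_forall_notMem]
        rintro x ⟨hx, h1⟩
        have := hcos x hx
        nlinarith
      rw [hemp, measure_empty] at hvol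
      have h2 : (0 : ℝ) < 1 / 2 := by norm_num
      exact absurd hvol.symm (ne_of_gt (ENNReal.ofReal_pos.mpr h2))
    set q : ℝ := ν / κ - 1 with hq
    have hq1 : -1 < q := by rw [hq]; have : 0 < ν / κ := by positivity
                            linarith
    have hq2 : q < 1 := by
      rw [hq]
      have : ν / κ < 2 := by rw [div_lt_iff₀ hκp]; exact hνκ
      linarith
    have hq3 : 0 < 1 - q ^ 2 := by nlinarith
    refine ⟨2 * Real.pi * κ * Real.sqrt (1 - q ^ 2), by positivity, ?_⟩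
    rintro x ⟨hx1, hx2⟩
    have hcont : Continuous fun x : ℝ => κ * (1 + Real.cos (2 * Real.pi * x)) := by fun_prop
    have hx3 : x ∈ closure {x | x ∈ Ioo (0 : ℝ) 1 ∧ ν ≤ κ * (1 + Real.cos (2 * Real.pi * x))} :=
      frontier_subset_closure hx1
    have hx4 : x ∈ Icc (0 : ℝ) 1 := by
      have h1 : closure {x | x ∈ Ioo (0 : ℝ) 1 ∧ ν ≤ κ * (1 + Real.cos (2 * Real.pi * x))} ⊆
          Icc (0 : ℝ) 1 := by
        apply closure_minimal _ isClosed_Icc
        rintro y ⟨hy, _⟩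
        exact Ioo_subset_Icc_self hy
      exact h1 hx3
    have hx5 : x ∈ Ioo (0 : ℝ) 1 := by
      rw [frontier_Ioo (by norm_num : (0 : ℝ) < 1)] at hx2
      have h0 : x ≠ 0 := fun h => hx2 (by rw [h]; exact mem_insert _ _)
      have h1 : x ≠ 1 := fun h => hx2 (by rw [h]; exact mem_insert_of_mem _ rfl)
      exact ⟨lt_of_le_of_ne hx4.1 (Ne.symm h0), lt_of_le_of_ne hx4.2 h1⟩
    have hge : ν ≤ κ * (1 + Real.cos (2 * Real.pi * x)) := by
      have h1 : closure {x | x ∈ Ioo (0 : ℝ) 1 ∧ ν ≤ κ * (1 + Real.cos (2 * Real.pi * x))} ⊆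
          {x | ν ≤ κ * (1 + Real.cos (2 * Real.pi * x))} := by
        apply closure_minimal _ (isClosed_le continuous_const hcont)
        rintro y ⟨_, hy⟩
        exact hy
      exact h1 hx3
    have hle : κ * (1 + Real.cos (2 * Real.pi * x)) ≤ ν := by
      by_contra hcon
      rw [not_le] at hcon
      have hopen : IsOpen {x | x ∈ Ioo (0 : ℝ) 1 ∧ ν < κ * (1 + Real.cos (2 * Real.pi * x))} :=
        isOpen_Ioo.inter (isOpen_lt continuous_const hcont)
      have hsub : {x | x ∈ Ioo (0 : ℝ) 1 ∧ ν < κ * (1 + Real.cos (2 * Real.pi * x))} ⊆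
          {x | x ∈ Ioo (0 : ℝ) 1 ∧ ν ≤ κ * (1 + Real.cos (2 * Real.pi * x))} :=
        fun y hy => ⟨hy.1, hy.2.le⟩
      have hint := interior_maximal hsub hopen ⟨hx5, hcon⟩
      exact hx1.2 hint
    have heq : κ * (1 + Real.cos (2 * Real.pi * x)) = ν := le_antisymm hle hge
    have hcq : Real.cos (2 * Real.pi * x) = q := by
      rw [hq, ← heq]
      field_simp
      ring
    have hder : HasDerivAt (fun x : ℝ => κ * (1 + Real.cos (2 * Real.pi * x)))
        (κ * (-(Real.sin (2 * Real.pi * x)) * (2 * Real.pi))) x := by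
      have h1 : HasDerivAt (fun x : ℝ => 2 * Real.pi * x) (2 * Real.pi) x := by
        simpa using (hasDerivAt_id x).const_mul (2 * Real.pi)
      have h2 := h1.cos
      exact (h2.const_add 1).const_mul κ
    rw [hder.deriv]
    have hsin : |Real.sin (2 * Real.pi * x)| = Real.sqrt (1 - q ^ 2) := by
      rw [← hcq, ← Real.sqrt_sq_eq_abs]
      congr 1
      have := Real.sin_sq_add_cos_sq (2 * Real.pi * x)
      linarith
    have habs : |κ * (-(Real.sin (2 * Real.pi * x)) * (2 * Real.pi))| =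
        2 * Real.pi * κ * Real.sqrt (1 - q ^ 2) := by
      rw [abs_mul, abs_mul, abs_neg, hsin, abs_of_pos hκp, abs_of_pos (by positivity)]
      ring
    rw [habs]

/-! ### The profile -/

noncomputable def rr : ℝ := Real.exp (-2)

lemma rr_pos : 0 < rr := Real.exp_pos _
lemma rr_lt : rr < 1 := by unfold rr; rw [Real.exp_lt_one_iff]; norm_num

noncomputable def sv : ℝ := (1 - rr) / (3 + rr)
noncomputable def vv : ℝ := (1 - rr ^ 2) / (2 * (3 + rr))

lemma sv_pos : 0 < sv := by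
  unfold sv
  have := rr_pos; have := rr_lt
  apply div_pos <;> linarith

lemma sv_lt : sv < 1 / 3 := by
  unfold sv
  have h1 := rr_pos; have := rr_lt
  rw [div_lt_iff₀ (by linarith)]
  linarith

lemma vv_pos : 0 < vv := by
  unfold vv
  have := rr_pos; have := rr_lt
  apply div_pos <;> nlinarith

lemma vv_le : vv ≤ 1 / 2 - sv := by
  unfold vv sv
  have := rr_pos; have := rr_lt
  have h3 : (0 : ℝ) < 3 + rr := by linarith
  have h : (1 : ℝ) / 2 - (1 - rr) / (3 + rr) = (1 + 3 * rr) / (2 * (3 + rr)) := by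
    field_simp; ring
  rw [h]
  apply div_le_div_of_nonneg_right _ (by positivity)
  nlinarith

lemma vv_g0 : (1 / 2 + sv / 2) * ((1 - rr ^ 2) / 4) = vv := by
  unfold vv sv
  have := rr_pos
  have h3 : (3 + rr) ≠ 0 := by positivity
  field_simp
  ring

lemma vv_g1 : (1 / 2 - sv / 2) * ((1 - rr) / 2) = vv := by
  unfold vv sv
  have := rr_pos
  have h3 : (3 + rr) ≠ 0 := by positivity
  field_simp
  ring

noncomputable def a0 (x : ℝ) : ℝ := 1 / 2 + sv * Real.cos (2 * Real.pi * x)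

lemma a0_cont : Continuous a0 := by unfold a0; fun_prop

lemma a0_ge (x : ℝ) : 1 / 2 - sv ≤ a0 x := by
  unfold a0
  have := sv_pos
  nlinarith [Real.neg_one_le_cos (2 * Real.pi * x)]

lemma a0_le (x : ℝ) : a0 x ≤ 1 / 2 + sv := by
  unfold a0
  have := sv_pos
  nlinarith [Real.cos_le_one (2 * Real.pi * x)]

lemma a0_pos (x : ℝ) : 0 < a0 x := by have := a0_ge x; have := sv_lt; linarith
lemma a0_lt (x : ℝ) : a0 x < 1 := by have := a0_le x; have := sv_lt; linarith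

lemma int_cos : ∫ x in Ioo (0 : ℝ) 1, Real.cos (2 * Real.pi * x) = 0 := by
  rw [← integral_Ioc_eq_integral_Ioo, ← intervalIntegral.integral_of_le (by norm_num)]
  have h : ∀ x ∈ uIcc (0 : ℝ) 1, HasDerivAt (fun x : ℝ => Real.sin (2 * Real.pi * x) / (2 * Real.pi))
      (Real.cos (2 * Real.pi * x)) x := by
    intro x _
    have h1 : HasDerivAt (fun x : ℝ => 2 * Real.pi * x) (2 * Real.pi) x := by
      simpa using (hasDerivAt_id x).const_mul (2 * Real.pi)
    have h2 := h1.sin.div_const (2 * Real.pi)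
    have h3 : Real.cos (2 * Real.pi * x) * (2 * Real.pi) / (2 * Real.pi) =
      Real.cos (2 * Real.pi * x) := by field_simp
    rwa [h3] at h2
  rw [intervalIntegral.integral_eq_sub_of_hasDerivAt h
    ((Continuous.intervalIntegrable (by fun_prop) _ _))]
  simp

lemma a0_UL : a0 ∈ UL (1 / 2) := by
  refine ⟨a0_cont.measurable, fun x _ => ⟨(a0_pos x).le, (a0_lt x).le⟩, ?_⟩
  unfold a0
  rw [integral_add, integral_const_mul, int_cos]
  · simp
  · exact integrable_const _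
  · have h : Continuous fun x : ℝ => sv * Real.cos (2 * Real.pi * x) := by fun_prop
    exact (h.integrableOn_Icc (a := 0) (b := 1)).mono_set Ioo_subset_Icc_self

/-! ### The quadratic form of the profile -/

lemma nsq (y : H) : ‖y‖ ^ 2 = ∫ x in Ioo (0 : ℝ) 1, ‖y x‖ ^ 2 := by
  have h1 : inner ℂ y y = ((‖y‖ : ℂ)) ^ 2 := inner_self_eq_norm_sq_to_K y
  rw [L2.inner_def] at h1
  have h2 : ∫ x in Ioo (0 : ℝ) 1, inner ℂ (y x) (y x) =
      ((∫ x in Ioo (0 : ℝ) 1, ‖y x‖ ^ 2 : ℝ) : ℂ) := by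
    rw [← integral_complex_ofReal]
    refine integral_congr_ae (ae_of_all _ (fun x => ?_))
    beta_reduce
    rw [inner_self_eq_norm_sq_to_K]
    push_cast
    rfl
  rw [h2] at h1
  exact_mod_cast h1.symm

lemma mul_mem (g : ℝ → ℝ) (hg : Measurable g) (h1 : ∀ x, |g x| ≤ 1) (y : H) :
    MemLp (fun x => (g x : ℂ) * y x) 2 (volume.restrict (Ioo (0 : ℝ) 1)) := by
  refine MemLp.mono (Lp.memLp y) ?_ (ae_of_all _ (fun x => ?_))
  · exact ((Complex.measurable_ofReal.comp hg).aestronglyMeasurable).mul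
      (Lp.aestronglyMeasurable y)
  · rw [norm_mul, Complex.norm_real, Real.norm_eq_abs]
    calc |g x| * ‖y x‖ ≤ 1 * ‖y x‖ := mul_le_mul_of_nonneg_right (h1 x) (norm_nonneg _)
      _ = _ := one_mul _

noncomputable def mulOp (g : ℝ → ℝ) (hg : Measurable g) (h1 : ∀ x, |g x| ≤ 1) : H →L[ℂ] H :=
  LinearMap.mkContinuous
    { toFun := fun y => (mul_mem g hg h1 y).toLp _
      map_add' := fun x y => by
        rw [← MemLp.toLp_add]
        apply MemLp.toLp_congr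
        filter_upwards [Lp.coeFn_add x y] with t ht
        rw [ht, Pi.add_apply, Pi.add_apply]
        ring
      map_smul' := fun c y => by
        rw [RingHom.id_apply, ← MemLp.toLp_const_smul]
        apply MemLp.toLp_congr
        filter_upwards [Lp.coeFn_smul c y] with t ht
        rw [ht, Pi.smul_apply, Pi.smul_apply, smul_eq_mul, smul_eq_mul]
        ring } 1
    (fun y => by
      rw [one_mul]
      apply Lp.norm_le_norm_of_ae_le
      filter_upwards [MemLp.coeFn_toLp (mul_mem g hg h1 y)] with x hx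
      show ‖((mul_mem g hg h1 y).toLp _ : ℝ → ℂ) x‖ ≤ ‖y x‖
      rw [hx, norm_mul, Complex.norm_real, Real.norm_eq_abs]
      calc |g x| * ‖y x‖ ≤ 1 * ‖y x‖ := mul_le_mul_of_nonneg_right (h1 x) (norm_nonneg _)
        _ = _ := one_mul _)

lemma mulOp_coe (g : ℝ → ℝ) (hg : Measurable g) (h1 : ∀ x, |g x| ≤ 1) (y : H) :
    (mulOp g hg h1 y : ℝ → ℂ) =ᵐ[volume.restrict (Ioo (0 : ℝ) 1)] fun x => (g x : ℂ) * y x :=
  MemLp.coeFn_toLp (mul_mem g hg h1 y)

/-- The quadratic form `∫ a |y|²`. -/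
noncomputable def Q (a : ℝ → ℝ) (y : H) : ℝ := ∫ x in Ioo (0 : ℝ) 1, a x * ‖y x‖ ^ 2

lemma sq_le1 (x : ℝ) : |Real.sqrt (a0 x)| ≤ 1 := by
  rw [abs_of_nonneg (Real.sqrt_nonneg _), Real.sqrt_le_one]
  exact (a0_lt x).le

lemma Q_a0 (y : H) : Q a0 y =
    ‖mulOp (fun x => Real.sqrt (a0 x)) (a0_cont.sqrt.measurable) sq_le1 y‖ ^ 2 := by
  rw [nsq]
  unfold Q
  refine integral_congr_ae ?_
  filter_upwards [mulOp_coe (fun x => Real.sqrt (a0 x)) (a0_cont.sqrt.measurable) sq_le1 y] with x hx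
  rw [hx, norm_mul, mul_pow, Complex.norm_real, Real.norm_eq_abs, sq_abs,
    Real.sq_sqrt (a0_pos x).le]

lemma Q_a0_cont : Continuous (Q a0) := by
  have h : Q a0 = fun y => ‖mulOp (fun x => Real.sqrt (a0 x)) (a0_cont.sqrt.measurable) sq_le1 y‖ ^ 2 := by
    funext y; exact Q_a0 y
  rw [h]
  exact ((ContinuousLinearMap.continuous _).norm).pow 2

lemma int_a (y : H) : Integrable (fun x => a0 x * ‖y x‖ ^ 2) (volume.restrict (Ioo (0 : ℝ) 1)) := by
  have h1 : Integrable (fun x => ‖y x‖ ^ 2) (volume.restrict (Ioo (0 : ℝ) 1)) :=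
    (Lp.memLp y).integrable_norm_pow (by norm_num)
  refine h1.mono' ?_ (ae_of_all _ (fun x => ?_))
  · exact (a0_cont.measurable.aestronglyMeasurable).mul h1.aestronglyMeasurable
  · rw [Real.norm_eq_abs, abs_mul, abs_of_pos (a0_pos x), abs_of_nonneg (by positivity)]
    have := a0_lt x
    nlinarith [sq_nonneg ‖y x‖]

lemma int_n (y : H) : Integrable (fun x => ‖y x‖ ^ 2) (volume.restrict (Ioo (0 : ℝ) 1)) :=
  (Lp.memLp y).integrable_norm_pow (by norm_num)

lemma Q_ge (y : H) : (1 / 2 - sv) * ‖y‖ ^ 2 ≤ Q a0 y := by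
  rw [nsq, ← integral_const_mul]
  unfold Q
  refine integral_mono ((int_n y).const_mul _) (int_a y) (fun x => ?_)
  exact mul_le_mul_of_nonneg_right (a0_ge x) (by positivity)

/-- The element `a0 · (α φ_0 + β φ_1)`. -/
noncomputable def vel (α β : ℂ) : H :=
  ((1 / 2 + sv / 2 : ℝ) * α) • bas 0 + ((1 / 2 - sv / 2 : ℝ) * β) • bas 1 +
    ((sv / 2 : ℝ) * β) • bas 2 + ((sv / 2 : ℝ) * α) • bas 3

lemma vel_coe (α β : ℂ) : (vel α β : ℝ → ℂ) =ᵐ[volume.restrict (Ioo (0 : ℝ) 1)]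
    fun x => (a0 x : ℂ) * ((α • bas 0 + β • bas 1 : H) : ℝ → ℂ) x := by
  unfold vel
  filter_upwards [Lp.coeFn_add (α • bas 0) (β • bas 1), Lp.coeFn_smul α (bas 0),
    Lp.coeFn_smul β (bas 1), bas_rep 0, bas_rep 1, bas_rep 2, bas_rep 3,
    Lp.coeFn_add (((1 / 2 + sv / 2 : ℝ) * α) • bas 0 + ((1 / 2 - sv / 2 : ℝ) * β) • bas 1 +
    ((sv / 2 : ℝ) * β) • bas 2) (((sv / 2 : ℝ) * α) • bas 3),
    Lp.coeFn_add (((1 / 2 + sv / 2 : ℝ) * α) • bas 0 + ((1 / 2 - sv / 2 : ℝ) * β) • bas 1)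
      (((sv / 2 : ℝ) * β) • bas 2),
    Lp.coeFn_add (((1 / 2 + sv / 2 : ℝ) * α) • bas 0) (((1 / 2 - sv / 2 : ℝ) * β) • bas 1),
    Lp.coeFn_smul ((1 / 2 + sv / 2 : ℝ) * α) (bas 0),
    Lp.coeFn_smul ((1 / 2 - sv / 2 : ℝ) * β) (bas 1),
    Lp.coeFn_smul ((sv / 2 : ℝ) * β) (bas 2),
    Lp.coeFn_smul ((sv / 2 : ℝ) * α) (bas 3)] with x h1 h2 h3 h4 h5 h6 h7 h8 h9 h10 h11 h12 h13 h14
  rw [h1, h8, Pi.add_apply, Pi.add_apply, h9, Pi.add_apply, h10, Pi.add_apply, h2, h3, h11, h12,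
    h13, h14]
  simp only [Pi.smul_apply, smul_eq_mul]
  rw [h4, h5, h6, h7]
  have e0 := cos_fr0 x
  have e1 := cos_fr1 x
  unfold a0
  push_cast
  push_cast at e0 e1
  linear_combination (-(sv : ℂ) * α) * e0 + (-(sv : ℂ) * β) * e1

lemma vel_inner (α β : ℂ) (y : H) : inner ℂ (vel α β) y =
    ((1 / 2 + sv / 2 : ℝ) : ℂ) * (conj α * co y 0) + ((1 / 2 - sv / 2 : ℝ) : ℂ) * (conj β * co y 1) +
    ((sv / 2 : ℝ) : ℂ) * (conj β * co y 2 + conj α * co y 3) := by
  unfold vel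
  rw [inner_add_left, inner_add_left, inner_add_left, inner_smul_left, inner_smul_left,
    inner_smul_left, inner_smul_left, ← co_inner, ← co_inner, ← co_inner, ← co_inner,
    map_mul, map_mul, map_mul, map_mul, Complex.conj_ofReal, Complex.conj_ofReal,
    Complex.conj_ofReal]
  ring

/-- The part of `y` orthogonal to the first two basis vectors. -/
noncomputable def tl (y : H) : H := y - (co y 0 • bas 0 + co y 1 • bas 1)

lemma co_tl (y : H) (j : ℕ) : co (tl y) j = if j < 2 then 0 else co y j := by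
  unfold tl
  rw [co_sub, co_add, co_smul, co_smul, co_bas, co_bas]
  rcases j with _ | _ | j
  · simp
  · simp
  · simp

lemma tl_norm (y : H) : ‖y‖ ^ 2 = ‖co y 0‖ ^ 2 + ‖co y 1‖ ^ 2 + ‖tl y‖ ^ 2 := by
  rw [norm_sq_co y, norm_sq_co (tl y), ← (summable_co y).sum_add_tsum_nat_add 2,
    ← (summable_co (tl y)).sum_add_tsum_nat_add 2, Finset.sum_range_succ, Finset.sum_range_succ,
    Finset.sum_range_succ, Finset.sum_range_succ]
  simp [co_tl]

lemma Q_eq (y : H) : Q a0 y = (1 / 2 + sv / 2) * ‖co y 0‖ ^ 2 + (1 / 2 - sv / 2) * ‖co y 1‖ ^ 2 +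
    sv * (conj (co y 1) * co y 2 + conj (co y 0) * co y 3).re + Q a0 (tl y) := by
  set v := vel (co y 0) (co y 1) with hv
  have h1 : Q a0 y = ∫ x in Ioo (0 : ℝ) 1, ((inner ℂ (v x) (y x)).re +
      (inner ℂ (v x) (tl y x)).re + a0 x * ‖tl y x‖ ^ 2) := by
    unfold Q
    refine integral_congr_ae ?_
    have hy : y = (co y 0 • bas 0 + co y 1 • bas 1) + tl y := by unfold tl; abel
    have h2 := Lp.coeFn_add (co y 0 • bas 0 + co y 1 • bas 1) (tl y)
    rw [← hy] at h2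
    filter_upwards [vel_coe (co y 0) (co y 1), h2] with x hx1 hx2
    rw [← hv] at hx1
    rw [hx1, hx2, Pi.add_apply]
    set u : ℂ := ((co y 0 • bas 0 + co y 1 • bas 1 : H) : ℝ → ℂ) x
    set w : ℂ := (tl y : ℝ → ℂ) x
    simp only [RCLike.inner_apply, map_mul, Complex.conj_ofReal]
    rw [Complex.sq_norm, Complex.sq_norm, Complex.normSq_apply, Complex.normSq_apply]
    simp only [Complex.add_re, Complex.add_im, Complex.mul_re, Complex.mul_im, Complex.conj_re,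
      Complex.conj_im, Complex.ofReal_re, Complex.ofReal_im]
    ring
  rw [h1]
  have i1 : Integrable (fun x => (inner ℂ (v x) (y x)).re) (volume.restrict (Ioo (0 : ℝ) 1)) :=
    (L2.integrable_inner (𝕜 := ℂ) v y).re
  have i2 : Integrable (fun x => (inner ℂ (v x) (tl y x)).re)
      (volume.restrict (Ioo (0 : ℝ) 1)) :=
    (L2.integrable_inner (𝕜 := ℂ) v (tl y)).re
  have i12 : Integrable (fun x => (inner ℂ (v x) (y x)).re + (inner ℂ (v x) (tl y x)).re)
      (volume.restrict (Ioo (0 : ℝ) 1)) := i1.add i2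
  rw [integral_add i12 (int_a (tl y)), integral_add i1 i2]
  have e1 : ∫ x in Ioo (0 : ℝ) 1, (inner ℂ (v x) (y x)).re = (inner ℂ v y).re := by
    rw [L2.inner_def]
    exact integral_re (L2.integrable_inner (𝕜 := ℂ) v y)
  have e2 : ∫ x in Ioo (0 : ℝ) 1, (inner ℂ (v x) (tl y x)).re = (inner ℂ v (tl y)).re := by
    rw [L2.inner_def]
    exact integral_re (L2.integrable_inner (𝕜 := ℂ) v (tl y))
  rw [e1, e2, hv, vel_inner, vel_inner, co_tl, co_tl, co_tl, co_tl]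
  have n0 : ((conj (co y 0)) * co y 0) = ((‖co y 0‖ ^ 2 : ℝ) : ℂ) := by
    rw [← Complex.normSq_eq_conj_mul_self, Complex.normSq_eq_norm_sq]
  have n1 : ((conj (co y 1)) * co y 1) = ((‖co y 1‖ ^ 2 : ℝ) : ℂ) := by
    rw [← Complex.normSq_eq_conj_mul_self, Complex.normSq_eq_norm_sq]
  rw [n0, n1]
  simp only [Complex.add_re, Complex.re_ofReal_mul, Complex.ofReal_re, if_pos (by norm_num : (0 : ℕ) < 2),
    if_pos (by norm_num : (1 : ℕ) < 2), if_neg (by norm_num : ¬ (2 : ℕ) < 2),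
    if_neg (by norm_num : ¬ (3 : ℕ) < 2), mul_zero, Complex.zero_re]
  unfold Q
  ring

end Pool.Agent.Q62.OB
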