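import Pool.Agent.Q62.OB.Lower

namespace Pool.Agent.Q62.OB

open MeasureTheory Filter Set
open scoped Topology ComplexConjugate ENNReal

lemma mt0 {t : ℝ} (ht : 0 ≤ t) : mt t 0 = ((Real.exp (2 * t) : ℝ) : ℂ) := by
  unfold mt lam
  rw [max_eq_left ht, Complex.ofReal_exp]
  congr 1
  push_cast
  ring

lemma mt1 {t : ℝ} (ht : 0 ≤ t) : mt t 1 = ((Real.exp t : ℝ) : ℂ) := by
  unfold mt lam
  rw [max_eq_left ht, Complex.ofReal_exp]
  congr 1
  ring

/-- The oscillating factor. -/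
noncomputable def om (t : ℝ) : ℂ :=
  (Real.cos (2 * Real.pi * t) : ℂ) - (Real.sin (2 * Real.pi * t) : ℂ) * Complex.I

lemma om_eq (t : ℝ) : om t = Complex.exp (-(2 * Real.pi * t : ℝ) * Complex.I) := by
  rw [Complex.exp_mul_I, Complex.cos_neg, Complex.sin_neg, ← Complex.ofReal_cos,
    ← Complex.ofReal_sin]
  unfold om
  ring

lemma mt2 {t : ℝ} (ht : 0 ≤ t) : mt t 2 = ((Real.exp (-t) : ℝ) : ℂ) * om t := by
  unfold mt lam
  rw [max_eq_left ht, Complex.ofReal_exp, om_eq, ← Complex.exp_add]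
  congr 1
  push_cast
  ring

lemma mt3 {t : ℝ} (ht : 0 ≤ t) : mt t 3 = ((Real.exp (-(2 * t)) : ℝ) : ℂ) * om t := by
  unfold mt lam
  rw [max_eq_left ht, Complex.ofReal_exp, om_eq, ← Complex.exp_add]
  congr 1
  push_cast
  ring

lemma tl_S (t : ℝ) (y : H) : tl (S t y) = S t (tl y) := by
  apply co_ext
  intro j
  rw [co_tl, co_S, co_S, co_tl]
  by_cases h : j < 2
  · rw [if_pos h, if_pos h, mul_zero]
  · rw [if_neg h, if_neg h]

lemma tail_mono {t : ℝ} (h0 : 0 ≤ t) (h1 : t ≤ 1) (y : H) :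
    ‖S 1 (tl y)‖ ≤ ‖S t (tl y)‖ := by
  apply norm_le_of_co
  intro j
  rw [co_S, co_S, co_tl]
  by_cases h : j < 2
  · rw [if_pos h, mul_zero, mul_zero]
  · rw [if_neg h, norm_mul, norm_mul]
    refine mul_le_mul_of_nonneg_right ?_ (norm_nonneg _)
    rw [mt_norm, mt_norm, max_eq_left h0, max_eq_left zero_le_one]
    apply Real.exp_le_exp.mpr
    have := lam_pos j (by omega)
    nlinarith

/-- The interaction coefficient. -/
noncomputable def KK (y : H) : ℂ := conj (co y 1) * co y 2 + conj (co y 0) * co y 3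

noncomputable def gg (y : H) (t : ℝ) : ℝ :=
  (1 / 2 + sv / 2) * (‖co y 0‖ ^ 2 * Real.exp (4 * t)) +
  (1 / 2 - sv / 2) * (‖co y 1‖ ^ 2 * Real.exp (2 * t)) +
  sv * ((KK y).re * Real.cos (2 * Real.pi * t) + (KK y).im * Real.sin (2 * Real.pi * t)) +
  (1 / 2 - sv) * ‖S 1 (tl y)‖ ^ 2

lemma Q_S_ge {t : ℝ} (h0 : 0 ≤ t) (h1 : t ≤ 1) (y : H) : gg y t ≤ Q a0 (S t y) := by
  rw [Q_eq, tl_S]
  have e0 : ‖co (S t y) 0‖ ^ 2 = ‖co y 0‖ ^ 2 * Real.exp (4 * t) := by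
    rw [co_S, mt0 h0, norm_mul, mul_pow, Complex.norm_real, Real.norm_eq_abs,
      abs_of_pos (Real.exp_pos _), ← Real.exp_nat_mul]
    push_cast
    rw [mul_comm]
    congr 2
    ring
  have e1 : ‖co (S t y) 1‖ ^ 2 = ‖co y 1‖ ^ 2 * Real.exp (2 * t) := by
    rw [co_S, mt1 h0, norm_mul, mul_pow, Complex.norm_real, Real.norm_eq_abs,
      abs_of_pos (Real.exp_pos _), ← Real.exp_nat_mul]
    push_cast
    rw [mul_comm]
  have e2 : conj (co (S t y) 1) * co (S t y) 2 + conj (co (S t y) 0) * co (S t y) 3 =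
      om t * KK y := by
    unfold KK
    rw [co_S, co_S, co_S, co_S, mt0 h0, mt1 h0, mt2 h0, mt3 h0, map_mul, map_mul,
      Complex.conj_ofReal, Complex.conj_ofReal]
    have f1 : ((Real.exp t : ℝ) : ℂ) * ((Real.exp (-t) : ℝ) : ℂ) = 1 := by
      rw [← Complex.ofReal_mul, ← Real.exp_add, add_neg_cancel, Real.exp_zero, Complex.ofReal_one]
    have f2 : ((Real.exp (2 * t) : ℝ) : ℂ) * ((Real.exp (-(2 * t)) : ℝ) : ℂ) = 1 := by
      rw [← Complex.ofReal_mul, ← Real.exp_add, add_neg_cancel, Real.exp_zero, Complex.ofReal_one]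
    linear_combination (om t * conj (co y 1) * co y 2) * f1 + (om t * conj (co y 0) * co y 3) * f2
  have e3 : (om t * KK y).re = (KK y).re * Real.cos (2 * Real.pi * t) +
      (KK y).im * Real.sin (2 * Real.pi * t) := by
    unfold om
    simp only [Complex.mul_re, Complex.sub_re, Complex.sub_im, Complex.mul_im, Complex.ofReal_re,
      Complex.ofReal_im, Complex.I_re, Complex.I_im]
    ring
  rw [e0, e1, e2, e3]
  unfold gg
  have h2 : (1 / 2 - sv) * ‖S 1 (tl y)‖ ^ 2 ≤ Q a0 (S t (tl y)) := by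
    refine le_trans ?_ (Q_ge _)
    have h3 := tail_mono h0 h1 y
    have h4 := sv_lt
    refine mul_le_mul_of_nonneg_left ?_ (by linarith)
    exact pow_le_pow_left₀ (norm_nonneg _) h3 2
  linarith

lemma gg_int (y : H) : ∫ t in (0 : ℝ)..1, gg y t =
    (1 / 2 + sv / 2) * (‖co y 0‖ ^ 2 * ((Real.exp 4 - 1) / 4)) +
    (1 / 2 - sv / 2) * (‖co y 1‖ ^ 2 * ((Real.exp 2 - 1) / 2)) +
    (1 / 2 - sv) * ‖S 1 (tl y)‖ ^ 2 := by
  have h : ∀ t ∈ uIcc (0 : ℝ) 1, HasDerivAt (fun t : ℝ =>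
      (1 / 2 + sv / 2) * (‖co y 0‖ ^ 2 * (Real.exp (4 * t) / 4)) +
      (1 / 2 - sv / 2) * (‖co y 1‖ ^ 2 * (Real.exp (2 * t) / 2)) +
      sv * ((KK y).re * (Real.sin (2 * Real.pi * t) / (2 * Real.pi)) +
        (KK y).im * (-Real.cos (2 * Real.pi * t) / (2 * Real.pi))) +
      (1 / 2 - sv) * ‖S 1 (tl y)‖ ^ 2 * t) (gg y t) t := by
    intro t _
    have h4 : HasDerivAt (fun x : ℝ => 4 * x) 4 t := by
      simpa using (hasDerivAt_id t).const_mul (4 : ℝ)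
    have h2 : HasDerivAt (fun x : ℝ => 2 * x) 2 t := by
      simpa using (hasDerivAt_id t).const_mul (2 : ℝ)
    have hp : HasDerivAt (fun x : ℝ => 2 * Real.pi * x) (2 * Real.pi) t := by
      simpa using (hasDerivAt_id t).const_mul (2 * Real.pi)
    have d1 := ((h4.exp.div_const 4).const_mul (‖co y 0‖ ^ 2)).const_mul (1 / 2 + sv / 2)
    have d2 := ((h2.exp.div_const 2).const_mul (‖co y 1‖ ^ 2)).const_mul (1 / 2 - sv / 2)
    have d3 := (((hp.sin.div_const (2 * Real.pi)).const_mul (KK y).re).add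
      ((hp.cos.neg.div_const (2 * Real.pi)).const_mul (KK y).im)).const_mul sv
    have d4 := (hasDerivAt_id t).const_mul ((1 / 2 - sv) * ‖S 1 (tl y)‖ ^ 2)
    refine (((d1.add d2).add d3).add d4).congr_deriv ?_
    unfold gg
    have hpi := Real.pi_pos
    field_simp
  have hc : Continuous (gg y) := by unfold gg; fun_prop
  rw [intervalIntegral.integral_eq_sub_of_hasDerivAt h (hc.intervalIntegrable _ _)]
  simp only [mul_one, mul_zero, Real.sin_zero, Real.cos_zero, Real.exp_zero, Real.sin_two_pi,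
    Real.cos_two_pi]
  ring

lemma rr_e2 : Real.exp 2 * rr = 1 := by
  unfold rr
  rw [← Real.exp_add]; norm_num

lemma rr_e4 : Real.exp 4 * rr ^ 2 = 1 := by
  unfold rr
  rw [← Real.exp_nat_mul, ← Real.exp_add]; norm_num

lemma norm_S1 (y : H) : ‖S 1 y‖ ^ 2 = ‖co y 0‖ ^ 2 * Real.exp 4 + ‖co y 1‖ ^ 2 * Real.exp 2 +
    ‖S 1 (tl y)‖ ^ 2 := by
  rw [tl_norm, tl_S, co_S, co_S, mt0 zero_le_one, mt1 zero_le_one, norm_mul, mul_pow,
    norm_mul, mul_pow, Complex.norm_real, Complex.norm_real, Real.norm_eq_abs, Real.norm_eq_abs,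
    abs_of_pos (Real.exp_pos _), abs_of_pos (Real.exp_pos _), ← Real.exp_nat_mul,
    ← Real.exp_nat_mul]
  push_cast
  norm_num
  ring

lemma lower (y : H) : vv * ‖S 1 y‖ ^ 2 ≤ ∫ t in (0 : ℝ)..1, Q a0 (S t y) := by
  have hc : Continuous (gg y) := by unfold gg; fun_prop
  have h1 : ∫ t in (0 : ℝ)..1, gg y t ≤ ∫ t in (0 : ℝ)..1, Q a0 (S t y) := by
    refine intervalIntegral.integral_mono_on zero_le_one (hc.intervalIntegrable _ _)
      ((Q_a0_cont.comp (S_cont y)).intervalIntegrable _ _) (fun t ht => Q_S_ge ht.1 ht.2 y)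
  refine le_trans ?_ h1
  rw [gg_int, norm_S1]
  have e1 : (Real.exp 4 - 1) / 4 = Real.exp 4 * ((1 - rr ^ 2) / 4) := by
    have := rr_e4
    linear_combination (1 / 4) * this
  have e2 : (Real.exp 2 - 1) / 2 = Real.exp 2 * ((1 - rr) / 2) := by
    have := rr_e2
    linear_combination (1 / 2) * this
  rw [e1, e2]
  have f1 := vv_g0
  have f2 := vv_g1
  have g1 : (1 / 2 + sv / 2) * (‖co y 0‖ ^ 2 * (Real.exp 4 * ((1 - rr ^ 2) / 4))) =
      vv * (‖co y 0‖ ^ 2 * Real.exp 4) := by rw [← f1]; ring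
  have g2 : (1 / 2 - sv / 2) * (‖co y 1‖ ^ 2 * (Real.exp 2 * ((1 - rr) / 2))) =
      vv * (‖co y 1‖ ^ 2 * Real.exp 2) := by rw [← f2]; ring
  rw [g1, g2]
  have g3 : vv * ‖S 1 (tl y)‖ ^ 2 ≤ (1 / 2 - sv) * ‖S 1 (tl y)‖ ^ 2 :=
    mul_le_mul_of_nonneg_right vv_le (by positivity)
  linarith

/-! ### The upper bound -/

lemma Q_comb {b : ℝ → ℝ} (hb : b ∈ UL (1 / 2)) (p q : ℝ) :
    Q b ((p : ℂ) • bas 0 + (q : ℂ) • bas 1) =
      p ^ 2 * (1 / 2 + ∫ x in Ioo (0 : ℝ) 1, b x * Real.cos (2 * Real.pi * x)) +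
      q ^ 2 * (1 / 2 - ∫ x in Ioo (0 : ℝ) 1, b x * Real.cos (2 * Real.pi * x)) := by
  obtain ⟨hbm, hb01, hbi⟩ := hb
  have i1 : Integrable (fun x => b x) (volume.restrict (Ioo (0 : ℝ) 1)) := by
    refine Integrable.mono' (integrable_const (1 : ℝ)) hbm.aestronglyMeasurable ?_
    filter_upwards [ae_restrict_mem measurableSet_Ioo] with x hx
    rw [Real.norm_eq_abs, abs_of_nonneg (hb01 x hx).1]
    exact (hb01 x hx).2
  have i2 : Integrable (fun x => b x * Real.cos (2 * Real.pi * x))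
      (volume.restrict (Ioo (0 : ℝ) 1)) := by
    have hc : Continuous fun x : ℝ => Real.cos (2 * Real.pi * x) := by fun_prop
    refine Integrable.mono' (integrable_const (1 : ℝ))
      (hbm.mul hc.measurable).aestronglyMeasurable ?_
    filter_upwards [ae_restrict_mem measurableSet_Ioo] with x hx
    rw [Real.norm_eq_abs, abs_mul, abs_of_nonneg (hb01 x hx).1]
    have h1 := (hb01 x hx).2
    have h2 := Real.abs_cos_le_one (2 * Real.pi * x)
    nlinarith [abs_nonneg (Real.cos (2 * Real.pi * x)), (hb01 x hx).1]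
  have h1 : Q b ((p : ℂ) • bas 0 + (q : ℂ) • bas 1) =
      ∫ x in Ioo (0 : ℝ) 1, ((p ^ 2 + q ^ 2) * b x +
        (p ^ 2 - q ^ 2) * (b x * Real.cos (2 * Real.pi * x))) := by
    unfold Q
    refine integral_congr_ae ?_
    filter_upwards [Lp.coeFn_add ((p : ℂ) • bas 0) ((q : ℂ) • bas 1), Lp.coeFn_smul (p : ℂ) (bas 0),
      Lp.coeFn_smul (q : ℂ) (bas 1), bas_rep 0, bas_rep 1] with x h1 h2 h3 h4 h5
    rw [h1, Pi.add_apply, h2, h3, Pi.smul_apply, Pi.smul_apply, smul_eq_mul, smul_eq_mul, h4, h5,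
      norm_comb]
    ring
  rw [h1, integral_add (i1.const_mul _) (i2.const_mul _), integral_const_mul, integral_const_mul,
    hbi]
  ring

noncomputable def g0 : ℝ := (1 - rr ^ 2) / 4
noncomputable def g1 : ℝ := (1 - rr) / 2

lemma g0_pos : 0 < g0 := by
  unfold g0
  have := rr_pos; have := rr_lt
  nlinarith

lemma g1_pos : 0 < g1 := by
  unfold g1
  have := rr_lt
  linarith

/-- The test datum. -/
noncomputable def tst : H :=
  ((Real.sqrt g0⁻¹ * Real.exp (-2) : ℝ) : ℂ) • bas 0 +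
  ((Real.sqrt g1⁻¹ * Real.exp (-1) : ℝ) : ℂ) • bas 1

lemma S_tst {t : ℝ} (ht : 0 ≤ t) : S t tst =
    ((Real.sqrt g0⁻¹ * Real.exp (2 * t - 2) : ℝ) : ℂ) • bas 0 +
    ((Real.sqrt g1⁻¹ * Real.exp (t - 1) : ℝ) : ℂ) • bas 1 := by
  unfold tst
  rw [map_add, map_smul, map_smul, S_bas, S_bas, smul_smul, smul_smul, mt0 ht, mt1 ht,
    ← Complex.ofReal_mul, ← Complex.ofReal_mul, mul_assoc, mul_assoc, ← Real.exp_add,
    ← Real.exp_add]
  congr 5
  · ring_nf
  · ring_nf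

lemma norm_tst : ‖S 1 tst‖ ^ 2 = g0⁻¹ + g1⁻¹ := by
  rw [S_tst zero_le_one]
  have e1 : (2 : ℝ) * 1 - 2 = 0 := by norm_num
  have e2 : (1 : ℝ) - 1 = 0 := by norm_num
  rw [e1, e2, Real.exp_zero, mul_one, mul_one, tl_norm]
  have h1 := g0_pos
  have h2 := g1_pos
  have c0 : co (((Real.sqrt g0⁻¹ : ℝ) : ℂ) • bas 0 + ((Real.sqrt g1⁻¹ : ℝ) : ℂ) • bas 1) 0 =
      ((Real.sqrt g0⁻¹ : ℝ) : ℂ) := by
    rw [co_add, co_smul, co_smul, co_bas, co_bas]; simp
  have c1 : co (((Real.sqrt g0⁻¹ : ℝ) : ℂ) • bas 0 + ((Real.sqrt g1⁻¹ : ℝ) : ℂ) • bas 1) 1 =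
      ((Real.sqrt g1⁻¹ : ℝ) : ℂ) := by
    rw [co_add, co_smul, co_smul, co_bas, co_bas]; simp
  unfold tl
  rw [c0, c1, sub_self, norm_zero, Complex.norm_real, Complex.norm_real, Real.norm_eq_abs,
    Real.norm_eq_abs, sq_abs, sq_abs, Real.sq_sqrt (by positivity), Real.sq_sqrt (by positivity)]
  ring

lemma quot_tst {b : ℝ → ℝ} (hb : b ∈ UL (1 / 2)) : quot S 1 b tst = vv := by
  unfold quot
  rw [norm_tst]
  have h1 : ∫ t in (0 : ℝ)..1, ∫ x in Ioo (0 : ℝ) 1, b x * ‖(S t tst : ℝ → ℂ) x‖ ^ 2 = 1 := by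
    set B := ∫ x in Ioo (0 : ℝ) 1, b x * Real.cos (2 * Real.pi * x) with hB
    have h2 : ∫ t in (0 : ℝ)..1, ∫ x in Ioo (0 : ℝ) 1, b x * ‖(S t tst : ℝ → ℂ) x‖ ^ 2 =
        ∫ t in (0 : ℝ)..1, (g0⁻¹ * Real.exp (4 * t - 4) * (1 / 2 + B) +
          g1⁻¹ * Real.exp (2 * t - 2) * (1 / 2 - B)) := by
      refine intervalIntegral.integral_congr (fun t ht => ?_)
      rw [uIcc_of_le zero_le_one] at ht
      have h3 := Q_comb hb (Real.sqrt g0⁻¹ * Real.exp (2 * t - 2))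
        (Real.sqrt g1⁻¹ * Real.exp (t - 1))
      rw [← S_tst ht.1] at h3
      have h4 := g0_pos
      have h5 := g1_pos
      rw [mul_pow, mul_pow, Real.sq_sqrt (by positivity), Real.sq_sqrt (by positivity),
        ← Real.exp_nat_mul, ← Real.exp_nat_mul] at h3
      have e1 : ((2 : ℕ) : ℝ) * (2 * t - 2) = 4 * t - 4 := by push_cast; ring
      have e2 : ((2 : ℕ) : ℝ) * (t - 1) = 2 * t - 2 := by push_cast; ring
      rw [e1, e2] at h3
      exact h3
    rw [h2]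
    have h : ∀ t ∈ uIcc (0 : ℝ) 1, HasDerivAt (fun t : ℝ =>
        g0⁻¹ * (Real.exp (4 * t - 4) / 4) * (1 / 2 + B) +
          g1⁻¹ * (Real.exp (2 * t - 2) / 2) * (1 / 2 - B))
        (g0⁻¹ * Real.exp (4 * t - 4) * (1 / 2 + B) +
          g1⁻¹ * Real.exp (2 * t - 2) * (1 / 2 - B)) t := by
      intro t _
      have h4 : HasDerivAt (fun x : ℝ => 4 * x - 4) 4 t := by
        simpa using ((hasDerivAt_id t).const_mul (4 : ℝ)).sub_const 4
      have h2 : HasDerivAt (fun x : ℝ => 2 * x - 2) 2 t := by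
        simpa using ((hasDerivAt_id t).const_mul (2 : ℝ)).sub_const 2
      have d1 := ((h4.exp.div_const 4).const_mul g0⁻¹).mul_const (1 / 2 + B)
      have d2 := ((h2.exp.div_const 2).const_mul g1⁻¹).mul_const (1 / 2 - B)
      refine (d1.add d2).congr_deriv ?_
      ring
    have hc : Continuous fun t : ℝ => (g0⁻¹ * Real.exp (4 * t - 4) * (1 / 2 + B) +
          g1⁻¹ * Real.exp (2 * t - 2) * (1 / 2 - B)) := by fun_prop
    rw [intervalIntegral.integral_eq_sub_of_hasDerivAt h (hc.intervalIntegrable _ _)]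
    have e1 : Real.exp (4 * 1 - 4) = 1 := by norm_num
    have e2 : Real.exp (2 * 1 - 2) = 1 := by norm_num
    have e3 : Real.exp (4 * 0 - 4) = rr ^ 2 := by
      unfold rr; rw [← Real.exp_nat_mul]; norm_num
    have e4 : Real.exp (2 * 0 - 2) = rr := by unfold rr; norm_num
    rw [e1, e2, e3, e4]
    have f0 : g0⁻¹ * ((1 - rr ^ 2) / 4) = 1 := inv_mul_cancel₀ g0_pos.ne'
    have f1 : g1⁻¹ * ((1 - rr) / 2) = 1 := inv_mul_cancel₀ g1_pos.ne'
    linear_combination (1 / 2 + B) * f0 + (1 / 2 - B) * f1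
  rw [h1]
  unfold g0 g1 vv
  have h2 := rr_pos
  have h3 := rr_lt
  have h4 : (1 - rr ^ 2) ≠ 0 := by nlinarith
  have h5 : (1 - rr) ≠ 0 := by linarith
  have h6 : (3 + rr) ≠ 0 := by linarith
  have h7 : ((1 - rr ^ 2) / 4)⁻¹ + ((1 - rr) / 2)⁻¹ = 2 * (3 + rr) / (1 - rr ^ 2) := by
    rw [inv_div, inv_div]
    have h8 : (1 - rr ^ 2) = (1 - rr) * (1 + rr) := by ring
    rw [h8]
    have h9 : (1 + rr) ≠ 0 := by linarith
    field_simp
    ring
  rw [h7, one_div, inv_div]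

lemma tst_ne : tst ≠ 0 := by
  intro h
  have h1 := norm_tst
  rw [h, map_zero, norm_zero] at h1
  have h2 := inv_pos.mpr g0_pos
  have h3 := inv_pos.mpr g1_pos
  norm_num at h1
  linarith

lemma tst_dom : tst ∈ Dom S :=
  ⟨_, ((isA_bas 0).smul _).add ((isA_bas 1).smul _)⟩

lemma CT_le {b : ℝ → ℝ} (hb : b ∈ UL (1 / 2)) : CT S 1 b ≤ vv := by
  unfold CT
  apply csInf_le
  · refine ⟨0, ?_⟩
    rintro r ⟨y, _, _, rfl⟩
    unfold quot
    apply div_nonneg _ (by positivity)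
    apply intervalIntegral.integral_nonneg zero_le_one
    intro t _
    apply setIntegral_nonneg measurableSet_Ioo
    intro x hx
    exact mul_nonneg (hb.2.1 x hx).1 (by positivity)
  · exact ⟨tst, tst_dom, tst_ne, (quot_tst hb).symm⟩

lemma CT_a0 : vv ≤ CT S 1 a0 := by
  unfold CT
  apply le_csInf
  · exact ⟨_, tst, tst_dom, tst_ne, rfl⟩
  · rintro r ⟨y, _, hy, rfl⟩
    unfold quot
    have h1 : S 1 y ≠ 0 := fun h => hy (S_inj 1 y h)
    have h2 : 0 < ‖S 1 y‖ ^ 2 := by positivity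
    rw [le_div_iff₀ h2]
    exact lower y

end Pool.Agent.Q62.OB
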