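import Pool.Agent.Q62.OB.Basis

namespace Pool.Agent.Q62.OB

open MeasureTheory Filter Set
open scoped Topology ComplexConjugate ENNReal

/-- The eigenvalues. -/
noncomputable def lam : ℕ → ℂ
  | 0 => -2
  | 1 => -1
  | 2 => 1 + 2 * Real.pi * Complex.I
  | 3 => 2 + 2 * Real.pi * Complex.I
  | (j + 4) => ((j + 4 : ℕ) : ℂ)

lemma lam_re0 : (lam 0).re = -2 := by simp [lam]
lemma lam_re1 : (lam 1).re = -1 := by simp [lam]
lemma lam_re2 : (lam 2).re = 1 := by simp [lam]
lemma lam_re3 : (lam 3).re = 2 := by simp [lam]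
lemma lam_re4 (j : ℕ) : (lam (j + 4)).re = j + 4 := by simp [lam]

lemma lam_ge (j : ℕ) : -2 ≤ (lam j).re := by
  rcases j with _ | _ | _ | _ | j
  · rw [lam_re0]
  · rw [lam_re1]; norm_num
  · rw [lam_re2]; norm_num
  · rw [lam_re3]; norm_num
  · rw [lam_re4]; have : (0 : ℝ) ≤ j := Nat.cast_nonneg j; linarith

lemma lam_pos (j : ℕ) (hj : 2 ≤ j) : 0 ≤ (lam j).re := by
  rcases j with _ | _ | _ | _ | j
  · omega
  · omega
  · rw [lam_re2]; norm_num
  · rw [lam_re3]; norm_num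
  · rw [lam_re4]; have : (0 : ℝ) ≤ j := Nat.cast_nonneg j; linarith

lemma lam_mono : Monotone fun j => (lam j).re := by
  apply monotone_nat_of_le_succ
  intro j
  rcases j with _ | _ | _ | _ | j
  · show (lam 0).re ≤ (lam 1).re
    rw [lam_re0, lam_re1]; norm_num
  · show (lam 1).re ≤ (lam 2).re
    rw [lam_re1, lam_re2]; norm_num
  · show (lam 2).re ≤ (lam 3).re
    rw [lam_re2, lam_re3]; norm_num
  · show (lam 3).re ≤ (lam (0 + 4)).re
    rw [lam_re3, lam_re4]; norm_num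
  · show (lam (j + 4)).re ≤ (lam (j + 1 + 4)).re
    rw [lam_re4, lam_re4]; push_cast; linarith

lemma lam_top : Tendsto (fun j => (lam j).re) atTop atTop := by
  rw [← tendsto_add_atTop_iff_nat 4]
  have h : (fun n : ℕ => (lam (n + 4)).re) = fun n : ℕ => (n : ℝ) + 4 := by
    funext n; rw [lam_re4]
  rw [h]
  exact tendsto_atTop_add_const_right _ _ tendsto_natCast_atTop_atTop

lemma lam_eq0 (j : ℕ) : (lam j).re = (lam 0).re ↔ j = 0 := by
  constructor
  · intro h
    rw [lam_re0] at h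
    rcases j with _ | _ | _ | _ | j
    · rfl
    · exfalso; rw [lam_re1] at h; norm_num at h
    · exfalso; rw [lam_re2] at h; norm_num at h
    · exfalso; rw [lam_re3] at h; norm_num at h
    · exfalso; rw [lam_re4] at h; have : (0 : ℝ) ≤ j := Nat.cast_nonneg j; linarith
  · rintro rfl; rfl

abbrev l2 : Type := lp (fun _ : ℕ => ℂ) 2

lemma mem_mul {m : ℕ → ℂ} {C : ℝ} (hm : ∀ j, ‖m j‖ ≤ C) (y : l2) :
    Memℓp (E := fun _ : ℕ => ℂ) (fun j => m j * y j) 2 := by
  have hC : 0 ≤ C := (norm_nonneg _).trans (hm 0)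
  have h := lp.memℓp ((C : ℂ) • y)
  refine h.mono' (fun j => ?_)
  rw [norm_mul, lp.coeFn_smul, Pi.smul_apply, norm_smul, Complex.norm_real,
    Real.norm_of_nonneg hC]
  exact mul_le_mul_of_nonneg_right (hm j) (norm_nonneg _)

noncomputable def mulSeq (m : ℕ → ℂ) (C : ℝ) (hm : ∀ j, ‖m j‖ ≤ C) (y : l2) : l2 :=
  ⟨fun j => m j * y j, mem_mul hm y⟩

lemma mulSeq_apply (m : ℕ → ℂ) (C : ℝ) (hm : ∀ j, ‖m j‖ ≤ C) (y : l2) (j : ℕ) :
    mulSeq m C hm y j = m j * y j := rfl

lemma mulSeq_norm (m : ℕ → ℂ) (C : ℝ) (hm : ∀ j, ‖m j‖ ≤ C) (y : l2) :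
    ‖mulSeq m C hm y‖ ≤ C * ‖y‖ := by
  have hC : 0 ≤ C := (norm_nonneg _).trans (hm 0)
  have h : ‖mulSeq m C hm y‖ ≤ ‖(C : ℂ) • y‖ := by
    refine lp.norm_mono (by norm_num) (fun j => ?_)
    rw [mulSeq_apply, norm_mul, lp.coeFn_smul, Pi.smul_apply, norm_smul, Complex.norm_real,
      Real.norm_of_nonneg hC]
    exact mul_le_mul_of_nonneg_right (hm j) (norm_nonneg _)
  rwa [norm_smul, Complex.norm_real, Real.norm_of_nonneg hC] at h

/-- The diagonal operator with entries `m` in the basis `bas`. -/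
noncomputable def Dg (m : ℕ → ℂ) (C : ℝ) (hm : ∀ j, ‖m j‖ ≤ C) : H →L[ℂ] H :=
  LinearMap.mkContinuous
    { toFun := fun y => bas.repr.symm (mulSeq m C hm (bas.repr y))
      map_add' := fun x y => by
        rw [← map_add]
        congr 1
        ext j
        rw [lp.coeFn_add, Pi.add_apply, mulSeq_apply, mulSeq_apply, mulSeq_apply, map_add,
          lp.coeFn_add, Pi.add_apply]
        ring
      map_smul' := fun c y => by
        rw [RingHom.id_apply, ← map_smul]
        congr 1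
        ext j
        rw [lp.coeFn_smul, Pi.smul_apply, mulSeq_apply, mulSeq_apply, map_smul,
          lp.coeFn_smul, Pi.smul_apply, smul_eq_mul, smul_eq_mul]
        ring } C
    (fun y => by
      show ‖bas.repr.symm (mulSeq m C hm (bas.repr y))‖ ≤ C * ‖y‖
      rw [LinearIsometryEquiv.norm_map]
      refine (mulSeq_norm m C hm _).trans (le_of_eq ?_)
      rw [LinearIsometryEquiv.norm_map])

/-- Coordinates in the basis `bas`. -/
noncomputable def co (y : H) (j : ℕ) : ℂ := bas.repr y j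

lemma co_Dg (m : ℕ → ℂ) (C : ℝ) (hm : ∀ j, ‖m j‖ ≤ C) (y : H) (j : ℕ) :
    co (Dg m C hm y) j = m j * co y j := by
  show bas.repr (bas.repr.symm (mulSeq m C hm (bas.repr y))) j = _
  rw [LinearIsometryEquiv.apply_symm_apply, mulSeq_apply]; rfl

lemma co_ext {x y : H} (h : ∀ j, co x j = co y j) : x = y := by
  apply bas.repr.injective
  ext j
  exact h j

lemma co_add (x y : H) (j : ℕ) : co (x + y) j = co x j + co y j := by
  unfold co; rw [map_add, lp.coeFn_add, Pi.add_apply]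

lemma co_sub (x y : H) (j : ℕ) : co (x - y) j = co x j - co y j := by
  unfold co; rw [map_sub, lp.coeFn_sub, Pi.sub_apply]

lemma co_smul (c : ℂ) (y : H) (j : ℕ) : co (c • y) j = c * co y j := by
  unfold co; rw [map_smul, lp.coeFn_smul, Pi.smul_apply, smul_eq_mul]

lemma co_bas (i j : ℕ) : co (bas i) j = if j = i then 1 else 0 := by
  unfold co
  rw [HilbertBasis.repr_self]
  by_cases h : j = i
  · subst h; simp
  · rw [if_neg h, lp.single_apply_ne _ _ _ h]

lemma co_inner (y : H) (j : ℕ) : co y j = inner ℂ (bas j) y :=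
  bas.repr_apply_apply y j

lemma norm_sq_co (y : H) : ‖y‖ ^ 2 = ∑' j, ‖co y j‖ ^ 2 := by
  rw [← bas.repr.norm_map y]
  have h := lp.norm_rpow_eq_tsum (p := 2) (by norm_num) (bas.repr y)
  have h2 : (2 : ℝ≥0∞).toReal = 2 := by norm_num
  rw [h2] at h
  rw [← Real.rpow_natCast]
  push_cast
  rw [h]
  refine tsum_congr (fun j => ?_)
  rw [← Real.rpow_natCast]; push_cast; rfl

lemma summable_co (y : H) : Summable fun j => ‖co y j‖ ^ 2 := by
  have h := (lp.memℓp (bas.repr y)).summable (by norm_num)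
  have h2 : (2 : ℝ≥0∞).toReal = 2 := by norm_num
  rw [h2] at h
  refine h.congr (fun j => ?_)
  rw [← Real.rpow_natCast]; push_cast; rfl

lemma norm_le_of_co {x y : H} (h : ∀ j, ‖co x j‖ ≤ ‖co y j‖) : ‖x‖ ≤ ‖y‖ := by
  rw [← bas.repr.norm_map x, ← bas.repr.norm_map y]
  exact lp.norm_mono (by norm_num) h

/-- The multipliers `exp (-λ_j t)` (`t ≥ 0`). -/
noncomputable def mt (t : ℝ) (j : ℕ) : ℂ := Complex.exp (-(lam j) * (max t 0 : ℝ))

lemma mt_norm (t : ℝ) (j : ℕ) : ‖mt t j‖ = Real.exp (-(lam j).re * max t 0) := by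
  unfold mt
  rw [Complex.norm_exp]
  congr 1
  rw [Complex.re_mul_ofReal, Complex.neg_re]

lemma mt_le (t : ℝ) (j : ℕ) : ‖mt t j‖ ≤ Real.exp (2 * max t 0) := by
  rw [mt_norm]
  apply Real.exp_le_exp.mpr
  apply mul_le_mul_of_nonneg_right _ (le_max_right _ _)
  linarith [lam_ge j]

/-- The semigroup generated by `-A₀`. -/
noncomputable def S (t : ℝ) : H →L[ℂ] H := Dg (mt t) (Real.exp (2 * max t 0)) (mt_le t)

lemma co_S (t : ℝ) (y : H) (j : ℕ) : co (S t y) j = mt t j * co y j := co_Dg _ _ _ _ _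

lemma S_bas (t : ℝ) (j : ℕ) : S t (bas j) = mt t j • bas j := by
  apply co_ext
  intro i
  rw [co_S, co_smul, co_bas]
  by_cases h : i = j
  · subst h; rfl
  · rw [if_neg h, mul_zero, mul_zero]

lemma mt_cont (j : ℕ) : Continuous fun t => mt t j := by
  unfold mt
  fun_prop

lemma S_cont (y : H) : Continuous fun t => S t y := by
  rw [continuous_iff_continuousAt]
  intro t₀
  rw [ContinuousAt, tendsto_iff_norm_sub_tendsto_zero]
  have h1 : Tendsto (fun t => ‖S t y - S t₀ y‖ ^ 2) (𝓝 t₀) (𝓝 0) := by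
    have h2 : ∀ t, ‖S t y - S t₀ y‖ ^ 2 = ∑' j, ‖(mt t j - mt t₀ j) * co y j‖ ^ 2 := by
      intro t
      rw [norm_sq_co]
      refine tsum_congr (fun j => ?_)
      rw [co_sub, co_S, co_S, sub_mul]
    simp_rw [h2]
    have h0 : (0 : ℝ) = ∑' _ : ℕ, (0 : ℝ) := by simp
    rw [h0]
    refine tendsto_tsum_of_dominated_convergence
      (bound := fun j => (2 * Real.exp (2 * (max t₀ 0 + 1))) ^ 2 * ‖co y j‖ ^ 2)
      ((summable_co y).mul_left _) ?_ ?_
    · intro j
      have h3 : Tendsto (fun t => ‖(mt t j - mt t₀ j) * co y j‖ ^ 2) (𝓝 t₀)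
          (𝓝 (‖(mt t₀ j - mt t₀ j) * co y j‖ ^ 2)) := by
        have h4 : Continuous fun t => ‖(mt t j - mt t₀ j) * co y j‖ ^ 2 :=
          ((((mt_cont j).sub continuous_const).mul continuous_const).norm).pow 2
        exact h4.tendsto t₀
      simpa using h3
    · have h5 : ∀ᶠ t in 𝓝 t₀, max t 0 ≤ max t₀ 0 + 1 := by
        have h6 : Tendsto (fun t : ℝ => max t 0) (𝓝 t₀) (𝓝 (max t₀ 0)) :=
          (continuous_id.max continuous_const).tendsto t₀
        exact (h6.eventually_lt_const (lt_add_one _)).mono (fun t ht => ht.le)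
      filter_upwards [h5] with t ht j
      rw [Real.norm_of_nonneg (by positivity), norm_mul, mul_pow]
      refine mul_le_mul_of_nonneg_right ?_ (by positivity)
      refine pow_le_pow_left₀ (norm_nonneg _) ?_ 2
      have e1 : Real.exp (2 * max t 0) ≤ Real.exp (2 * (max t₀ 0 + 1)) :=
        Real.exp_le_exp.mpr (by linarith)
      have e2 : Real.exp (2 * max t₀ 0) ≤ Real.exp (2 * (max t₀ 0 + 1)) :=
        Real.exp_le_exp.mpr (by linarith)
      calc ‖mt t j - mt t₀ j‖ ≤ ‖mt t j‖ + ‖mt t₀ j‖ := norm_sub_le _ _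
        _ ≤ Real.exp (2 * (max t₀ 0 + 1)) + Real.exp (2 * (max t₀ 0 + 1)) :=
            add_le_add ((mt_le t j).trans e1) ((mt_le t₀ j).trans e2)
        _ = _ := by ring
  have h7 := h1.sqrt
  simp only [Real.sqrt_zero] at h7
  refine h7.congr (fun t => ?_)
  rw [Real.sqrt_sq (norm_nonneg _)]

lemma S_semi : IsSemigroup S where
  zero := by
    intro y
    apply co_ext
    intro j
    rw [co_S]
    unfold mt
    simp
  add := by
    intro s t hs ht y
    apply co_ext
    intro j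
    rw [co_S, co_S, co_S, ← mul_assoc]
    congr 1
    unfold mt
    rw [← Complex.exp_add, max_eq_left hs, max_eq_left ht, max_eq_left (add_nonneg hs ht)]
    congr 1
    push_cast
    ring
  cont := fun y => (S_cont y).continuousOn

lemma S_inj (t : ℝ) (y : H) (h : S t y = 0) : y = 0 := by
  apply co_ext
  intro j
  have h1 : co (S t y) j = co (0 : H) j := by rw [h]
  have h0 : co (0 : H) j = 0 := by unfold co; rw [map_zero]; rfl
  rw [co_S, h0] at h1
  rw [h0]
  rcases mul_eq_zero.mp h1 with h2 | h2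
  · exact absurd h2 (Complex.exp_ne_zero _)
  · exact h2

lemma isA_bas (j : ℕ) : IsA S (bas j) (lam j • bas j) := by
  unfold IsA
  have h1 : HasDerivAt (fun t : ℝ => Complex.exp (-(lam j) * (t : ℂ))) (-(lam j)) 0 := by
    have h2 : HasDerivAt (fun t : ℝ => -(lam j) * (t : ℂ)) (-(lam j) * 1) 0 :=
      (HasDerivAt.ofReal_comp (hasDerivAt_id (0 : ℝ))).const_mul _
    have h3 := h2.cexp
    simpa using h3
  have h4 := h1.tendsto_slope_zero_right
  have h5 : Tendsto (fun t : ℝ => (t⁻¹ : ℝ) • (Complex.exp (-(lam j) * ((0 + t : ℝ) : ℂ)) -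
      Complex.exp (-(lam j) * ((0 : ℝ) : ℂ)))) (𝓝[>] 0) (𝓝 (-(lam j))) := h4
  have h6 : Tendsto (fun t : ℝ => (-((t⁻¹ : ℝ) • (Complex.exp (-(lam j) * ((0 + t : ℝ) : ℂ)) -
      Complex.exp (-(lam j) * ((0 : ℝ) : ℂ)))) : ℂ) • bas j) (𝓝[>] 0)
      (𝓝 ((-(-(lam j))) • bas j)) := h5.neg.smul_const _
  rw [neg_neg] at h6
  refine h6.congr' ?_
  filter_upwards [self_mem_nhdsWithin] with t ht
  have ht' : (0 : ℝ) < t := ht
  have h8 : bas j - mt t j • bas j = (1 - mt t j) • bas j := by rw [sub_smul, one_smul]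
  rw [S_bas, h8, smul_smul]
  congr 1
  unfold mt
  rw [max_eq_left ht'.le, zero_add, Complex.ofReal_zero, mul_zero, Complex.exp_zero,
    Complex.real_smul, Complex.ofReal_inv]
  ring

lemma IsA.add {x y x' y' : H} (h : IsA S x x') (k : IsA S y y') : IsA S (x + y) (x' + y') := by
  unfold IsA at *
  refine (Tendsto.add h k).congr (fun t => ?_)
  rw [← smul_add, map_add]
  congr 1
  abel

lemma IsA.smul {x x' : H} (c : ℂ) (h : IsA S x x') : IsA S (c • x) (c • x') := by
  unfold IsA at *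
  refine (Tendsto.const_smul h c).congr (fun t => ?_)
  rw [map_smul, ← smul_sub, smul_comm]

lemma isA_zero : IsA S 0 0 := by
  unfold IsA
  refine tendsto_const_nhds.congr (fun t => ?_)
  rw [map_zero, sub_zero, smul_zero]

lemma dom_dense : Dense (Dom S) := by
  have h1 : (Submodule.span ℂ (range bas) : Set H) ⊆ Dom S := by
    intro y hy
    refine Submodule.span_induction (p := fun y _ => y ∈ Dom S) ?_ ?_ ?_ ?_ hy
    · rintro _ ⟨j, rfl⟩
      exact ⟨_, isA_bas j⟩
    · exact ⟨_, isA_zero⟩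
    · rintro x y _ _ ⟨x', hx⟩ ⟨y', hy⟩
      exact ⟨_, hx.add hy⟩
    · rintro c x _ ⟨x', hx⟩
      exact ⟨_, hx.smul c⟩
  refine Dense.mono h1 ?_
  rw [Submodule.dense_iff_topologicalClosure_eq_top]
  exact bas.dense_span

lemma S_H1 : H1 S bas lam where
  eig := isA_bas
  mono := lam_mono
  top := lam_top

lemma S_H2 : H2 bas fr where
  rep := bas_rep
  analytic := fun j x _ => fr_an j x trivial

end Pool.Agent.Q62.OB
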